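import Pool.Agent.Lib.MP_0c623d_al.Burn

namespace Pool.Agent.Results.MP_0c623d_al.NotLinear

open Pool.Agent.Lib.MP_0c623d_al

/-- The free group of rank `n` modulo the normal subgroup generated by the `m`-th powers of the
primitive elements. -/
abbrev BP (n m : ℕ) : Type :=
  FreeGroup (Fin n) ⧸ Subgroup.normalClosure
    {x : FreeGroup (Fin n) | ∃ b : FreeGroupBasis (Fin n) (FreeGroup (Fin n)),
      ∃ i : Fin n, x = (b i) ^ m}

theorem result : ∃ M : ℕ, ∀ n : ℕ, 3 ≤ n → ∀ m d : ℕ, 0 < m → d ∣ m → Odd d → M ≤ d →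
    ∀ N : ℕ, ∃ g : BP n m, g ≠ 1 ∧
      ∀ (R : Type) [CommRing R] (ρ : BP n m →* GL (Fin N) R), ρ g = 1 := by
  obtain ⟨M, hM⟩ := exists_burnside
  refine ⟨M, fun n hn m d hm hd ho hMd N => ?_⟩
  obtain ⟨B, _, a, b, hcl, C, hab, _, he⟩ := hM d ho hMd
  by_contra hcon
  push Not at hcon
  choose R inst ρ hρ using fun g : {g : BP n m // g ≠ 1} => hcon g.1 g.2
  let β := FreeGroupBasis.ofFreeGroup (Fin n)
  let H := Subgroup.closure (β '' {j | j ≠ ⟨2, by omega⟩})
  let q : FreeGroup (Fin n) →* BP n m := QuotientGroup.mk' _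
  let π : FreeGroup (Fin n) →* B := FreeGroup.lift fun i => if i.1 = 0 then a else b
  let τ : BP n m →* Matrix (Fin N) (Fin N) (∀ g, R g) :=
    { toFun := fun x => Matrix.of fun i j g => (ρ g x).1 i j
      map_one' := by
        ext i j g
        by_cases h : i = j <;> simp [Matrix.one_apply, h]
      map_mul' := fun x y => by
        ext i j g
        simp [Matrix.mul_apply] }
  have hs : Function.Surjective (π.comp H.subtype) := by
    rw [← MonoidHom.range_eq_top, eq_top_iff, ← hcl, Subgroup.closure_le]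
    rintro x (rfl | rfl)
    · exact ⟨⟨β ⟨0, by omega⟩, Subgroup.subset_closure ⟨_, by simp, rfl⟩⟩, by simp [π, β]⟩
    · exact ⟨⟨β ⟨1, by omega⟩, Subgroup.subset_closure ⟨_, by simp, rfl⟩⟩, by simp [π, β]⟩
  obtain ⟨h, h1, h2⟩ := exists_ker hs C hab ((τ.comp q).comp H.subtype)
    (c := τ (q (β ⟨2, by omega⟩))) hm fun h => by
      obtain ⟨β', hβ⟩ := exists_basis β _ h.2
      have : q ((h.1 * β ⟨2, by omega⟩) ^ m) = 1 :=
        (QuotientGroup.eq_one_iff _).2 (Subgroup.subset_normalClosure ⟨β', _, by rw [hβ]⟩)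
      have := congrArg τ this
      rwa [map_pow, map_pow, map_mul, map_mul, map_one] at this
  have h3 : q h = 1 := by
    by_contra h3
    refine hρ ⟨_, h3⟩ (Units.ext (Matrix.ext fun i j => ?_))
    have := congrFun (congrFun (congrFun h1 i) j) ⟨_, h3⟩
    refine this.trans ?_
    by_cases h : i = j <;> simp [Matrix.one_apply, h]
  refine h2 ((Subgroup.normalClosure_le_normal (N := π.ker) ?_) ((QuotientGroup.eq_one_iff _).1 h3))
  rintro _ ⟨β', i, rfl⟩
  obtain ⟨k, rfl⟩ := hd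
  rw [SetLike.mem_coe, MonoidHom.mem_ker, map_pow, pow_mul, he, one_pow]

end Pool.Agent.Results.MP_0c623d_al.NotLinear
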