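import Pool.Agent.Lib.MP_0c623d_al.BP.Done

namespace Pool.Agent.Results.MP_0c623d_al.RankTwo

/-- The free group of rank `n` modulo the normal subgroup generated by the `m`-th powers of the
primitive elements. -/
abbrev BP (n m : ℕ) : Type :=
  FreeGroup (Fin n) ⧸ Subgroup.normalClosure
    {x : FreeGroup (Fin n) | ∃ b : FreeGroupBasis (Fin n) (FreeGroup (Fin n)),
      ∃ i : Fin n, x = (b i) ^ m}

theorem result : ∀ m : ℕ, m % 12 = 6 → 126 ≤ m → ∀ g : BP 2 m, g ≠ 1 →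
    ∃ (Q : Type) (_ : Group Q) (_ : Finite Q) (φ : BP 2 m →* Q), φ g ≠ 1 := by
  intro m h1 h2
  obtain ⟨j, rfl⟩ : ∃ j, m = 2 * (6 * j + 3) := ⟨m / 12, by omega⟩
  have hk : Odd (6 * j + 3) := ⟨3 * j + 1, by ring⟩
  obtain ⟨A⟩ := Pool.Agent.Lib.MP_0c623d_al.BP.an_all _ hk (by omega)
  exact Pool.Agent.Lib.MP_0c623d_al.BP.rf_of hk (by omega) A

end Pool.Agent.Results.MP_0c623d_al.RankTwo
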